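import Pool.Agent.H3.QK

set_option autoImplicit false

namespace Pool.Agent.Results.MP_32aa3b_co.Log

open Pool.Agent.H3.QK

theorem result : ∀ C : ℕ, ∃ (δ : ℕ) (V : Type) (_ : Fintype V) (A : V → V → Prop), 1 ≤ δ ∧
    (∀ v, ¬ A v v) ∧ (∀ v, δ ≤ {u | A u v}.ncard) ∧ (∃ v, {u | A u v}.ncard = δ) ∧
    ∀ Q : Finset V, IsQKernel A 3 Q → C * Fintype.card V < (δ + 1) * Q.card := by
  intro C
  refine ⟨2 ^ (15 * C), V (15 * C), inferInstance, A (15 * C), Nat.one_le_two_pow, loopless _,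
    indeg _, ⟨(0, .inr (.inl 0)), inP _ _ _⟩, fun Q hQ => ?_⟩
  have h := kernel _ Q hQ
  rw [cardV]
  have h2 := Nat.mul_le_mul_left (2 ^ (15 * C) + 1) h
  generalize 2 ^ (15 * C) = d at *
  nlinarith

end Pool.Agent.Results.MP_32aa3b_co.Log
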